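import Pool.Agent.W761.Tail.Main

/-!
# Cubic (and longer) averages for systems whose tail comes from a Gaussian system

`IsExhaustive μ T 𝒜`: `𝒜` is a sub-σ-algebra with `T⁻¹ 𝒜 ⊆ 𝒜`, and for every measurable `B` some
`T^{-k} B` is arbitrarily close to a set of `𝒜` (for invertible `T` this means that the σ-algebras
`T^k 𝒜` increase to the full one; the full σ-algebra itself is always exhaustive).

`IsTailSet μ T 𝒜 B`: `B` is measurable and for every `k` is, modulo null sets, of the form
`T^{-k} C` with `C ∈ 𝒜`.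

`IsGaussian ν S`: `S` is an invertible bi-measurable map preserving the probability measure `ν`, and
some linear space of centered Gaussian random variables is invariant modulo null sets under `S`,
`S⁻¹` and generates the σ-algebra modulo null sets. The spectral type is arbitrary.
-/

set_option autoImplicit false

open Filter Topology MeasureTheory
open scoped ENNReal

namespace Pool.Agent.Results.MP_9721b5_an.GaussianTail

open Pool.Agent.W761.Tail

/-- Let `T` be a measure preserving map (not necessarily invertible) of the probability space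
`(X, μ)`, and `𝒜` an exhaustive σ-algebra. Suppose that `(X, μ, T)` has a factor `(Z, ρ, R)` which
contains the tail of `𝒜` and which is also a factor of a Gaussian system `(Y, ν, S)`. Then for
all `m` and `f_1, …, f_m ∈ L^∞(μ)` the averages
`(1/N) ∑_{n=1}^N f_1 (T^n x) f_2 (T^{2n} x) ⋯ f_m (T^{mn} x)` converge for almost every `x`. -/
theorem result (m : ℕ) {X Y Z : Type} {𝒜 : MeasurableSpace X} [mX : MeasurableSpace X]
    [MeasurableSpace Y] [MeasurableSpace Z] (μ : Measure X) [IsProbabilityMeasure μ]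
    (ν : Measure Y) [IsProbabilityMeasure ν] (ρ : Measure Z)
    (T : X → X) (hT : MeasurePreserving T μ μ) (h𝒜 : IsExhaustive μ T 𝒜)
    (R : Z → Z) (hR : Measurable R) (φ : X → Z) (hφ : MeasurePreserving φ μ ρ)
    (hφT : ∀ᵐ x ∂μ, φ (T x) = R (φ x))
    (htail : ∀ B, IsTailSet μ T 𝒜 B → ∃ D, MeasurableSet D ∧ B =ᵐ[μ] φ ⁻¹' D)
    (S : Equiv.Perm Y) (hS : IsGaussian ν S) (π : Y → Z) (hπ : MeasurePreserving π ν ρ)
    (hπS : ∀ᵐ y ∂ν, π (S y) = R (π y)) (f : Fin m → X → ℂ) (hf : ∀ j, MemLp (f j) ∞ μ) :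
    ∀ᵐ x ∂μ, ∃ L : ℂ, Tendsto (fun N : ℕ => (N : ℂ)⁻¹ * ∑ n ∈ Finset.Icc 1 N,
      ∏ j : Fin m, f j (T^[((j : ℕ) + 1) * n] x)) atTop (𝓝 L) :=
  main hT h𝒜 hR hφ hφT htail hS hπ hπS hf

end Pool.Agent.Results.MP_9721b5_an.GaussianTail
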